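import Mathlib
import Pool.Agent.H.MP_f8fa1d_co.C
set_option autoImplicit false

namespace Pool.Agent.Results.MP_f8fa1d_co.Att
open Filter Topology

/-- `A` contains `a, a r, a r ^ 2` with real ratio `r > 1`. -/
def HasGP (A : Set ℕ) : Prop :=
  ∃ a ∈ A, ∃ b ∈ A, ∃ c ∈ A, ∃ r : ℝ, 1 < r ∧ (b : ℝ) = a * r ∧ (c : ℝ) = a * r ^ 2

/-- `A` is a set of positive integers with natural density `d`. -/
def HasDensity (A : Set ℕ) (d : ℝ) : Prop :=
  0 ∉ A ∧ Tendsto (fun n : ℕ => ((A ∩ Set.Ico 1 n).ncard : ℝ) / n) atTop (𝓝 d)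

noncomputable def s : ℝ := sSup {d | ∃ A, ¬ HasGP A ∧ HasDensity A d}

def Guarantees (α : ℝ) : Prop := ∀ A, HasDensity A α → HasGP A

/-- supremum of `∑ 1 / n` over finite GP-free sets of `P`-smooth positive integers. -/
noncomputable def W (P : ℕ) : ℝ :=
  sSup {x | ∃ S : Finset ℕ, ¬ HasGP S ∧ (∀ n ∈ S, 0 < n ∧ ∀ p, p.Prime → p ∣ n → p ≤ P) ∧
    x = ∑ n ∈ S, (1 : ℝ) / n}

open Pool.Agent.H.MP_f8fa1d_co Pool.Agent.H.MP_9f86c8_nt

theorem free_iff {A : Set ℕ} (h : ∀ n ∈ A, 0 < n) : ¬ HasGP A ↔ Free A := by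
  constructor
  · intro hA a ha b hb c hc hab hbc he
    have a0 : (0 : ℝ) < a := by exact_mod_cast h a ha
    have e : (b : ℝ) ^ 2 = a * c := by exact_mod_cast he
    refine hA ⟨a, ha, b, hb, c, hc, b / a, (one_lt_div a0).2 (by exact_mod_cast hab), ?_, ?_⟩
    · field_simp
    · field_simp
      linarith
  · rintro hA ⟨a, ha, b, hb, c, hc, r, hr, e1, e2⟩
    have a0 : (0 : ℝ) < a := by exact_mod_cast h a ha
    have h1 : (a : ℝ) < b := by nlinarith
    have h2 : (b : ℝ) < c := by nlinarith [mul_pos a0 (show 0 < r * (r - 1) by nlinarith)]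
    have h3 : (b : ℝ) ^ 2 = a * c := by rw [e1, e2]; ring
    exact hA a ha b hb c hc (by exact_mod_cast h1) (by exact_mod_cast h2) (by exact_mod_cast h3)

theorem dens_iff (A : Set ℕ) (d : ℝ) : HasDensity A d ↔ (∀ n ∈ A, 0 < n) ∧
    Tendsto (fun N : ℕ => (cnt A N : ℝ) / N) atTop (𝓝 d) := by
  classical
  have h1 : ∀ N, (A ∩ Set.Ico 1 (N + 1)).ncard = cnt A N := by
    intro N
    rw [cnt, ← Set.ncard_coe_finset]
    congr 1
    ext n
    simp only [Set.mem_inter_iff, Set.mem_Ico, Finset.coe_filter, Finset.mem_Icc,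
      Set.mem_ofPred_eq, Nat.lt_succ_iff]
    tauto
  have h2 : Tendsto (fun N : ℕ => (cnt A N : ℝ) / N - ((A ∩ Set.Ico 1 N).ncard : ℝ) / N)
      atTop (𝓝 0) := by
    refine squeeze_zero' ?_ ?_ tendsto_one_div_atTop_nhds_zero_nat
    all_goals
      filter_upwards [eventually_gt_atTop 0] with N hN
      obtain ⟨n, rfl⟩ : ∃ n, N = n + 1 := ⟨N - 1, by omega⟩
      rw [h1, ← sub_div, cnt_succ]
      split_ifs <;> simp <;> positivity
  refine and_congr ⟨fun h n hn => Nat.pos_of_ne_zero fun e => h (e ▸ hn),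
    fun h h0 => lt_irrefl _ (h 0 h0)⟩ ⟨fun h => ?_, fun h => ?_⟩
  · simpa using h2.add h
  · simpa using h.sub h2

theorem smooth_iff {P n : ℕ} (hn : 0 < n) :
    (∀ p, p.Prime → p ∣ n → p ≤ P) ↔ ∃ k, n ∣ P.factorial ^ k := by
  constructor
  · intro h
    obtain ⟨m, t, k, e, c, hk⟩ := decomp P.factorial n hn
    have : m = 1 := by
      by_contra h1
      obtain ⟨p, hp, hpm⟩ := Nat.exists_prime_and_dvd h1
      exact hp.one_lt.ne' (Nat.eq_one_of_dvd_coprimes c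
        (Nat.dvd_factorial hp.pos (h p hp (e ▸ hpm.mul_right _))) hpm)
    exact ⟨k, by rw [e, this, one_mul]; exact hk⟩
  · rintro ⟨k, hk⟩ p hp hpn
    exact hp.dvd_factorial.1 (hp.dvd_of_dvd_pow (hpn.trans hk))

theorem result :
    (∃ A, ¬ HasGP A ∧ HasDensity A s) ∧ (∀ α, 0 ≤ α → (Guarantees α ↔ s < α)) ∧
    ∀ P : ℕ, 0 < P → P.factorial.totient / P.factorial * W P - 1 / P ≤ s ∧
      s ≤ P.factorial.totient / P.factorial * W P := by
  classical
  have hb : ∀ d ∈ {d | ∃ A, ¬ HasGP A ∧ HasDensity A d}, d ≤ 1 := by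
    rintro d ⟨A, -, hd⟩
    refine le_of_tendsto' ((dens_iff A d).1 hd).2 fun N => div_le_one_of_le₀ ?_ (by positivity)
    have := Finset.card_filter_le (Finset.Icc 1 N) fun n => n ∈ A
    rw [Nat.card_Icc, Nat.add_sub_cancel] at this
    exact_mod_cast this
  have he : (0 : ℝ) ∈ {d | ∃ A, ¬ HasGP A ∧ HasDensity A d} :=
    ⟨∅, by simp [HasGP], by simp [HasDensity]⟩
  have h0 : 0 ≤ s := le_csSup ⟨1, hb⟩ he
  have h1 : s ≤ 1 := csSup_le ⟨0, he⟩ hb
  have key : ∀ α, 0 ≤ α → α ≤ s → ∃ A, ¬ HasGP A ∧ HasDensity A α := by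
    intro α a0 a1
    obtain ⟨A, b1, b2, b3⟩ := attain a0 (a1.trans h1) (fun ε hε => by
      obtain ⟨d, ⟨A, c1, c2⟩, c3⟩ := exists_lt_of_lt_csSup ⟨0, he⟩ (show α - ε < s by linarith)
      have c4 := (dens_iff A d).1 c2
      exact ⟨A, d, (free_iff c4.1).1 c1, c4.2, c3⟩)
    exact ⟨A, (free_iff b1).2 b2, (dens_iff A α).2 ⟨b1, b3⟩⟩
  refine ⟨key s h0 le_rfl, fun α a0 => ⟨fun h => ?_, fun h A hA => ?_⟩, fun P hP => ?_⟩
  · by_contra hc
    obtain ⟨A, b1, b2⟩ := key α a0 (not_lt.1 hc)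
    exact b1 (h A b2)
  · by_contra hc
    exact absurd (le_csSup ⟨1, hb⟩ ⟨A, hc, hA⟩ : α ≤ s) (not_le.2 h)
  have hδ : (0 : ℝ) < P.factorial.totient / P.factorial :=
    div_pos (by exact_mod_cast Nat.totient_pos.2 P.factorial_pos)
      (by exact_mod_cast P.factorial_pos)
  have low : ∀ x ∈ {x | ∃ S : Finset ℕ, ¬ HasGP S ∧
      (∀ n ∈ S, 0 < n ∧ ∀ p, p.Prime → p ∣ n → p ≤ P) ∧ x = ∑ n ∈ S, (1 : ℝ) / n},
      x ≤ (s + 1 / P) / (P.factorial.totient / P.factorial) := by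
    rintro x ⟨S, s1, s2, rfl⟩
    have s3 : Sm P.factorial S := fun n hn => ⟨(s2 n hn).1, (smooth_iff (s2 n hn).1).1 (s2 n hn).2⟩
    have s4 : Free S := (free_iff fun n hn => (s2 n hn).1).1 s1
    rw [le_div_iff₀ hδ, mul_comm, ← sub_le_iff_le_add]
    change P.factorial.totient / P.factorial * w S - 1 / P ≤ s
    by_contra hc
    obtain ⟨C, hC⟩ := two_piece hP (H1 := Cop P.factorial) (H2 := ∅) subset_rfl (Set.empty_subset _)
      (Set.disjoint_empty _) (δ2 := 0) hδ.le le_rfl (cop_bounds P.factorial_pos)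
      (fun N => by simp [cnt]) s3 s3 (A := Str P fun _ => S) (by
        rintro m s h0 hb (h | h)
        · exact ⟨h0, hb, m, h.1, s, h.2, rfl⟩
        · exact h.1.elim)
    rw [zero_mul, add_zero] at hC
    obtain ⟨B, b1, b2⟩ := thin (Str P fun _ => S) _ (h0.trans (not_le.1 hc).le) (fun ε hε => by
      have := (tendsto_const_div_atTop_nhds_zero_nat (C : ℝ)).add sqrt_lim
      rw [add_zero] at this
      filter_upwards [this.eventually (gt_mem_nhds hε), eventually_gt_atTop 0] with N h1 hN K hK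
      have hN' : (0 : ℝ) < N := by exact_mod_cast hN
      rw [← add_div, div_lt_iff₀ hN'] at h1
      linarith [hC K N hK])
    have b3 : ∀ n ∈ B, 0 < n := fun n hn => (b1 hn).1
    have b4 := str_free (fun _ => s3) (fun _ => s4)
    exact hc (le_csSup ⟨1, hb⟩ ⟨B, (free_iff b3).2 fun a ha b hb c hc =>
      b4 a (b1 ha) b (b1 hb) c (b1 hc), (dens_iff B _).2 ⟨b3, b2⟩⟩)
  constructor
  · have : W P ≤ (s + 1 / P) / (P.factorial.totient / P.factorial) :=
      csSup_le ⟨0, ∅, by simp [HasGP], by simp, by simp⟩ low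
    rw [le_div_iff₀ hδ] at this
    linarith
  · obtain ⟨A, b1, b2⟩ := key s h0 le_rfl
    have b3 := (dens_iff A s).1 b2
    exact upper P.factorial_pos ((free_iff b3.1).1 b1) b3.2 fun S s1 s2 => le_csSup ⟨_, low⟩
      ⟨S, (free_iff fun n hn => (s1 n hn).1).2 s2,
        fun n hn => ⟨(s1 n hn).1, (smooth_iff (s1 n hn).1).2 (s1 n hn).2⟩, rfl⟩

end Pool.Agent.Results.MP_f8fa1d_co.Att
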